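import Pool.Agent.MP_3ce0a0_al.H79.XS

/-
Actions of the symmetric group in which every point is fixed by one of two disjoint three-cycles.
-/

namespace Pool.Agent.MP_3ce0a0_al.H40

open Equiv Finset

section cyc
variable {X : Type} [DecidableEq X]

/-- the three-cycle `a ↦ b ↦ c ↦ a`. -/
def cy (a b c : X) : Perm X := swap a b * swap b c

lemma cy_a {a b c : X} (hab : a ≠ b) (hac : a ≠ c) : cy a b c a = b := by
  simp [cy, swap_apply_of_ne_of_ne hab hac]

lemma cy_b {a b c : X} (hac : a ≠ c) (hbc : b ≠ c) : cy a b c b = c := by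
  simp [cy, swap_apply_of_ne_of_ne hac.symm hbc.symm]

lemma cy_c (a b c : X) : cy a b c c = a := by
  simp [cy]

lemma cy_o {a b c x : X} (ha : x ≠ a) (hb : x ≠ b) (hc : x ≠ c) : cy a b c x = x := by
  simp [cy, swap_apply_of_ne_of_ne hb hc, swap_apply_of_ne_of_ne ha hb]

lemma cy_conj (τ : Perm X) (a b c : X) : τ * cy a b c * τ⁻¹ = cy (τ a) (τ b) (τ c) := by
  rw [cy, cy, swap_apply_apply τ a b, swap_apply_apply τ b c]
  group

lemma cy_rev (a b c : X) : cy c b a = (cy a b c)⁻¹ := by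
  rw [cy, cy, mul_inv_rev, swap_inv, swap_inv, swap_comm c b, swap_comm b a]

lemma cy_rot {a b c : X} (hab : a ≠ b) (hac : a ≠ c) (hbc : b ≠ c) : cy b c a = cy a b c := by
  ext x
  by_cases ha : x = a
  · rw [ha, cy_c, cy_a hab hac]
  by_cases hb : x = b
  · rw [hb, cy_a hbc hab.symm, cy_b hac hbc]
  by_cases hc : x = c
  · rw [hc, cy_b hab.symm hac.symm, cy_c]
  rw [cy_o hb hc ha, cy_o ha hb hc]

lemma cy_fix {a b c : X} (hab : a ≠ b) (hac : a ≠ c) (hbc : b ≠ c) (x : X) :
    cy a b c x = x ↔ x ≠ a ∧ x ≠ b ∧ x ≠ c := by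
  refine ⟨fun h => ⟨?_, ?_, ?_⟩, fun h => cy_o h.1 h.2.1 h.2.2⟩
  · rintro rfl
    exact hab (by rw [cy_a hab hac] at h; exact h.symm)
  · rintro rfl
    exact hbc (by rw [cy_b hac hbc] at h; exact h.symm)
  · rintro rfl
    exact hac (by rw [cy_c] at h; exact h)

lemma cy_cube {a b c : X} (hab : a ≠ b) (hac : a ≠ c) (hbc : b ≠ c) : cy a b c ^ 3 = 1 := by
  ext x
  rw [pow_succ, pow_two, Perm.mul_apply, Perm.mul_apply, Perm.one_apply]
  by_cases ha : x = a
  · rw [ha, cy_a hab hac, cy_b hac hbc, cy_c]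
  by_cases hb : x = b
  · rw [hb, cy_b hac hbc, cy_c, cy_a hab hac]
  by_cases hc : x = c
  · rw [hc, cy_c, cy_a hab hac, cy_b hac hbc]
  rw [cy_o ha hb hc, cy_o ha hb hc, cy_o ha hb hc]

omit [DecidableEq X] in
lemma option_mul (s t : Perm X) : optionCongr (s * t) = optionCongr s * optionCongr t := by
  ext x
  cases x <;> simp

lemma cy_option (a b c : X) : optionCongr (cy a b c) = cy (some a) (some b) (some c) := by
  rw [cy, cy, option_mul, optionCongr_swap, optionCongr_swap]

/-- good triples. -/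
def Gd (H : Subgroup (Perm X)) (a b c : X) : Prop := a ≠ b ∧ a ≠ c ∧ b ≠ c ∧ cy a b c ∈ H

variable {H : Subgroup (Perm X)}

lemma Gd.rot {a b c : X} (h : Gd H a b c) : Gd H b c a :=
  ⟨h.2.2.1, h.1.symm, h.2.1.symm, by rw [cy_rot h.1 h.2.1 h.2.2.1]; exact h.2.2.2⟩

lemma Gd.rev {a b c : X} (h : Gd H a b c) : Gd H c b a :=
  ⟨h.2.2.1.symm, h.2.1.symm, h.1.symm, by rw [cy_rev]; exact inv_mem h.2.2.2⟩

lemma Gd.sw {a b c : X} (h : Gd H a b c) : Gd H b a c := h.rev.rot

lemma Gd.sw' {a b c : X} (h : Gd H a b c) : Gd H a c b := h.rot.rev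

lemma Gd.conj {a b c : X} (h : Gd H a b c) {g : Perm X} (hg : g ∈ H) : Gd H (g a) (g b) (g c) :=
  ⟨g.injective.ne h.1, g.injective.ne h.2.1, g.injective.ne h.2.2.1, by
    rw [← cy_conj]; exact mul_mem (mul_mem hg h.2.2.2) (inv_mem hg)⟩

lemma Gd.two {a b c d : X} (h : Gd H a b c) (k : Gd H a b d) (hcd : c ≠ d) : Gd H a c d := by
  have := h.conj k.sw.2.2.2
  rw [cy_b k.2.2.1 k.2.1, cy_a k.1.symm k.2.2.1, cy_o h.2.2.1.symm h.2.1.symm hcd] at this
  exact this.rot

lemma Gd.join {x y z u v : X} (h : Gd H x y u) (k : Gd H y z v) (hxz : x ≠ z) : Gd H x y z := by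
  by_cases huz : u = z
  · exact huz ▸ h
  by_cases hvx : v = x
  · exact (hvx ▸ k).rot.rot
  by_cases huv : u = v
  · exact (h.rot.two (huv ▸ k).sw' hxz).sw
  have := h.conj k.2.2.2
  rw [cy_o h.1 hxz (Ne.symm hvx), cy_a k.1 k.2.1, cy_o h.2.2.1.symm huz huv] at this
  exact h.sw'.two this.sw' k.1

/-- points in no good triple. -/
def Iso (H : Subgroup (Perm X)) (i : X) : Prop := ∀ a b, ¬ Gd H i a b

/-- one of two disjoint triples is good. -/
def Cov (H : Subgroup (Perm X)) : Prop :=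
  ∀ a b c d e f : X, [a, b, c, d, e, f].Nodup → cy a b c ∈ H ∨ cy d e f ∈ H

lemma Cov.link (hc : Cov H) {x y : X} (hx : ¬ Iso H x) (hy : ¬ Iso H y) (hxy : x ≠ y) :
    ∃ z, Gd H x y z := by
  by_contra hn
  push Not at hn
  simp only [Iso, not_forall, not_not] at hx hy
  obtain ⟨a, b, h⟩ := hx
  obtain ⟨c, d, k⟩ := hy
  have h1 : ∀ {u v}, Gd H x u v → u ≠ y := fun g e => hn _ (e ▸ g)
  have h2 : ∀ {u v}, Gd H y u v → u ≠ x := fun g e => hn _ (e ▸ g).sw
  have h3 : ∀ {u v u' v'}, Gd H x u v → Gd H y u' v' → u ≠ u' := fun g g' e =>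
    hn _ (g.join (e ▸ g').sw hxy).sw'
  have h4 : ∀ w, ¬ Gd H a c w := fun w g =>
    hn _ ((h.join g (h2 k).symm).sw'.join k.sw hxy).sw'
  have := hc x y b a c d (by
    simp only [List.nodup_cons, List.mem_cons, List.not_mem_nil, or_false, not_or,
      not_false_eq_true, List.nodup_nil, and_true]
    exact ⟨⟨hxy, h.2.1, h.1, (h2 k).symm, (h2 k.sw').symm⟩,
      ⟨(h1 h.sw').symm, (h1 h).symm, k.1, k.2.1⟩, ⟨h.2.2.1.symm, h3 h.sw' k, h3 h.sw' k.sw'⟩,
      ⟨h3 h k, h3 h k.sw'⟩, k.2.2.1⟩)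
  rcases this with g | g
  · exact hn b ⟨hxy, h.2.1, (h1 h.sw').symm, g⟩
  · exact h4 d ⟨h3 h k, h3 h k.sw', k.2.2.1, g⟩

lemma Cov.mem_iff (hc : Cov H) {a b c : X} (hab : a ≠ b) (hac : a ≠ c) (hbc : b ≠ c) :
    cy a b c ∈ H ↔ ¬ Iso H a ∧ ¬ Iso H b ∧ ¬ Iso H c := by
  constructor
  · intro h
    have g : Gd H a b c := ⟨hab, hac, hbc, h⟩
    exact ⟨fun i => i _ _ g, fun i => i _ _ g.rot, fun i => i _ _ g.rev⟩
  · rintro ⟨ha, hb, hc'⟩
    obtain ⟨u, g⟩ := hc.link ha hb hab
    obtain ⟨v, k⟩ := hc.link hb hc' hbc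
    exact (g.join k hac).2.2.2

lemma exists_new [Fintype X] (l : List X) (h : l.length < Fintype.card X) : ∃ x, x ∉ l := by
  by_contra hn
  push Not at hn
  have : (univ : Finset X) ⊆ l.toFinset := fun x _ => List.mem_toFinset.2 (hn x)
  have h1 := card_le_card this
  have h2 := l.toFinset_card_le
  rw [card_univ] at h1
  omega

lemma Cov.uniq [Fintype X] (hc : Cov H) (hN : 6 ≤ Fintype.card X) {i j : X} (hi : Iso H i)
    (hj : Iso H j) : i = j := by
  by_contra hij
  obtain ⟨a, ha⟩ := exists_new [i, j] (by simp; omega)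
  obtain ⟨b, hb⟩ := exists_new [i, j, a] (by simp; omega)
  obtain ⟨c, hc'⟩ := exists_new [i, j, a, b] (by simp; omega)
  obtain ⟨d, hd⟩ := exists_new [i, j, a, b, c] (by simp; omega)
  simp only [List.mem_cons, List.not_mem_nil, or_false, not_or] at ha hb hc' hd
  have := hc i a b j c d (by
    simp only [List.nodup_cons, List.mem_cons, List.not_mem_nil, or_false, not_or,
      not_false_eq_true, List.nodup_nil, and_true]
    exact ⟨⟨Ne.symm ha.1, Ne.symm hb.1, hij, Ne.symm hc'.1, Ne.symm hd.1⟩,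
      ⟨Ne.symm hb.2.2, ha.2, Ne.symm hc'.2.2.1, Ne.symm hd.2.2.1⟩,
      ⟨hb.2.1, Ne.symm hc'.2.2.2, Ne.symm hd.2.2.2.1⟩,
      ⟨Ne.symm hc'.2.1, Ne.symm hd.2.1⟩, Ne.symm hd.2.2.2.2⟩)
  rcases this with g | g
  · exact hi a b ⟨Ne.symm ha.1, Ne.symm hb.1, Ne.symm hb.2.2, g⟩
  · exact hj c d ⟨Ne.symm hc'.2.1, Ne.symm hd.2.1, Ne.symm hd.2.2.2.2, g⟩

end cyc

section act
variable {X Ω : Type} [DecidableEq X] (P : Perm X →* Perm Ω)

/-- the stabiliser of a point. -/
def stb (ω : Ω) : Subgroup (Perm X) := (MulAction.stabilizer (Perm Ω) ω).comap P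

omit [DecidableEq X] in
lemma mem_stb {ω : Ω} {g : Perm X} : g ∈ stb P ω ↔ P g ω = ω := Iff.rfl

lemma cy_stb (τ : Perm X) (ω : Ω) (a b c : X) :
    cy (τ a) (τ b) (τ c) ∈ stb P (P τ ω) ↔ cy a b c ∈ stb P ω := by
  rw [mem_stb, mem_stb, ← cy_conj, map_mul, map_mul, map_inv, Perm.mul_apply, Perm.mul_apply,
    Perm.inv_def, symm_apply_apply, (P τ).apply_eq_iff_eq]

lemma iso_act (τ : Perm X) {ω : Ω} {i : X} (h : Iso (stb P ω) i) : Iso (stb P (P τ ω)) (τ i) := by
  intro a b g
  obtain ⟨a, rfl⟩ := τ.surjective a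
  obtain ⟨b, rfl⟩ := τ.surjective b
  exact h a b ⟨fun e => g.1 (congrArg τ e), fun e => g.2.1 (congrArg τ e),
    fun e => g.2.2.1 (congrArg τ e), (cy_stb P τ ω i a b).1 g.2.2.2⟩

lemma cov_of {a b c d e f : X} (hn : [a, b, c, d, e, f].Nodup)
    (h : ∀ ω, cy a b c ∈ stb P ω ∨ cy d e f ∈ stb P ω) (ω : Ω) : Cov (stb P ω) := by
  intro a' b' c' d' e' f' hn'
  obtain ⟨τ, hτ⟩ := Perm.exists_extending_pair (f := [a, b, c, d, e, f].get)
    (g := [a', b', c', d', e', f'].get) (List.nodup_iff_injective_get.1 hn)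
    (List.nodup_iff_injective_get.1 hn')
  have h0 : τ a = a' := hτ ⟨0, by simp⟩
  have h1 : τ b = b' := hτ ⟨1, by simp⟩
  have h2 : τ c = c' := hτ ⟨2, by simp⟩
  have h3 : τ d = d' := hτ ⟨3, by simp⟩
  have h4 : τ e = e' := hτ ⟨4, by simp⟩
  have h5 : τ f = f' := hτ ⟨5, by simp⟩
  obtain ⟨ω, rfl⟩ := (P τ).surjective ω
  rw [← h0, ← h1, ← h2, ← h3, ← h4, ← h5, cy_stb, cy_stb]
  exact h ω

end act

lemma card_sub {Ω : Type} [Fintype Ω] (p : Ω → Prop) [DecidablePred p] :
    Nat.card {ω // p ω} = (univ.filter p).card := by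
  rw [Nat.card_eq_fintype_card, Fintype.card_subtype]

theorem sact : H79.X.SAct := by
  intro ι Ω _ _ _ P α ρ hn h
  classical
  have := Fintype.ofFinite Ω
  obtain ⟨a⟩ : Nonempty ι := Fintype.card_pos_iff.1 (by omega)
  obtain ⟨b, hb⟩ := exists_new [a] (by simp; omega)
  obtain ⟨c, hc⟩ := exists_new [a, b] (by simp; omega)
  obtain ⟨d, hd⟩ := exists_new [a, b, c] (by simp; omega)
  obtain ⟨e, he⟩ := exists_new [a, b, c, d] (by simp; omega)
  obtain ⟨f, hf⟩ := exists_new [a, b, c, d, e] (by simp; omega)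
  simp only [List.mem_cons, List.not_mem_nil, or_false, not_or] at hb hc hd he hf
  have hab : a ≠ b := Ne.symm hb
  have hac : a ≠ c := Ne.symm hc.1
  have hbc : b ≠ c := Ne.symm hc.2
  have hde : d ≠ e := Ne.symm he.2.2.2
  have hdf : d ≠ f := Ne.symm hf.2.2.2.1
  have hef : e ≠ f := Ne.symm hf.2.2.2.2
  have hdis : (cy a b c).Disjoint (cy d e f) := fun x => by
    rw [cy_fix hab hac hbc, cy_fix hde hdf hef]
    by_cases k : x ≠ a ∧ x ≠ b ∧ x ≠ c
    · exact Or.inl k
    · refine Or.inr ⟨?_, ?_, ?_⟩ <;> rintro rfl <;> apply k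
      · exact hd
      · exact ⟨he.1, he.2.1, he.2.2.1⟩
      · exact ⟨hf.1, hf.2.1, hf.2.2.1⟩
  have h0 := h 1 (one_pow 3)
  have h1 := h _ (cy_cube hab hac hbc)
  have h2 := h _ (cy_cube hde hdf hef)
  have h3 := h (cy a b c * cy d e f)
    (by rw [hdis.commute.mul_pow, cy_cube hab hac hbc, cy_cube hde hdf hef, mul_one])
  rw [card_sub, card_sub] at h0 h1 h2 h3
  have e0 : (univ.filter fun x : ι => (1 : Perm ι) x = x).card = Fintype.card ι := by simp
  have e0' : (univ.filter fun ω : Ω => P (optionCongr (1 : Perm ι)) ω = ω).card =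
      Fintype.card Ω := by simp
  have e1 : (univ.filter fun x : ι => cy a b c x = x).card + 3 = Fintype.card ι := by
    have k : (univ.filter fun x : ι => ¬ cy a b c x = x) = {a, b, c} := by
      ext x
      simp only [mem_filter, mem_univ, true_and, cy_fix hab hac hbc, mem_insert, mem_singleton]
      tauto
    have := card_filter_add_card_filter_not (s := (univ : Finset ι)) fun x : ι => cy a b c x = x
    rw [k, card_eq_three.2 ⟨a, b, c, hab, hac, hbc, rfl⟩, card_univ] at this
    exact this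
  have e2 : Fintype.card ι + (univ.filter fun x : ι => (cy a b c * cy d e f) x = x).card =
      (univ.filter fun x : ι => cy a b c x = x).card +
        (univ.filter fun x : ι => cy d e f x = x).card := by
    rw [← card_union_add_card_inter, ← card_univ]
    congr 2
    · ext x
      simpa using hdis x
    · ext x
      simp only [mem_filter, mem_univ, true_and, mem_inter]
      exact hdis.mul_apply_eq_iff
  rw [e0, e0'] at h0
  rw [option_mul] at h3
  rw [cy_option] at h1 h2
  rw [cy_option, cy_option] at h3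
  have hcov : ∀ ω, cy (some a) (some b) (some c) ∈ stb P ω ∨
      cy (some d) (some e) (some f) ∈ stb P ω := by
    have k1 := card_union_add_card_inter
      (univ.filter fun ω : Ω => P (cy (some a) (some b) (some c)) ω = ω)
      (univ.filter fun ω : Ω => P (cy (some d) (some e) (some f)) ω = ω)
    have k2 : ((univ.filter fun ω : Ω => P (cy (some a) (some b) (some c)) ω = ω) ∩
        (univ.filter fun ω : Ω => P (cy (some d) (some e) (some f)) ω = ω)).card ≤
        (univ.filter fun ω : Ω =>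
          P (cy (some a) (some b) (some c) * cy (some d) (some e) (some f)) ω = ω).card := by
      refine card_le_card fun ω hω => ?_
      simp only [mem_filter, mem_univ, true_and, mem_inter] at hω ⊢
      rw [map_mul, Perm.mul_apply, hω.2, hω.1]
    have k3 : (Fintype.card Ω : ℤ) + (univ.filter fun ω : Ω =>
          P (cy (some a) (some b) (some c) * cy (some d) (some e) (some f)) ω = ω).card =
        (univ.filter fun ω : Ω => P (cy (some a) (some b) (some c)) ω = ω).card +
        (univ.filter fun ω : Ω => P (cy (some d) (some e) (some f)) ω = ω).card := by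
      rw [h0, h1, h2, h3]
      have : (Fintype.card ι : ℤ) + (univ.filter fun x : ι => (cy a b c * cy d e f) x = x).card =
        (univ.filter fun x : ι => cy a b c x = x).card +
          (univ.filter fun x : ι => cy d e f x = x).card := by exact_mod_cast e2
      linear_combination (ρ : ℤ) * this
    have k4 : (univ.filter fun ω : Ω => P (cy (some a) (some b) (some c)) ω = ω) ∪
        (univ.filter fun ω : Ω => P (cy (some d) (some e) (some f)) ω = ω) = univ :=
      eq_univ_of_card _ (le_antisymm (card_le_univ _) (by omega))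
    intro ω
    have := k4 ▸ mem_univ ω
    simpa [mem_stb] using this
  have hC : ∀ ω, Cov (stb P ω) := cov_of P (by
    simp only [List.nodup_cons, List.mem_cons, List.not_mem_nil, or_false, not_or,
      not_false_eq_true, List.nodup_nil, and_true, Option.some.injEq]
    exact ⟨⟨hab, hac, Ne.symm hd.1, Ne.symm he.1, Ne.symm hf.1⟩,
      ⟨hbc, Ne.symm hd.2.1, Ne.symm he.2.1, Ne.symm hf.2.1⟩,
      ⟨Ne.symm hd.2.2, Ne.symm he.2.2.1, Ne.symm hf.2.2.1⟩, ⟨hde, hdf⟩, hef⟩) hcov
  have hN : 6 ≤ Fintype.card (Option ι) := by rw [Fintype.card_option]; omega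
  set R : Option ι → Finset Ω := fun i => univ.filter fun ω => Iso (stb P ω) i with hR
  have hRd : ∀ i j, i ≠ j → Disjoint (R i) (R j) := fun i j hij =>
    disjoint_left.2 fun ω h1 h2 => hij ((hC ω).uniq hN (mem_filter.1 h1).2 (mem_filter.1 h2).2)
  have hRle : ∀ i j, (R i).card ≤ (R j).card := fun i j =>
    card_le_card_of_injOn (P (swap i j)) (fun ω hω => by
      have := iso_act P (swap i j) (mem_filter.1 hω).2
      rw [swap_apply_left] at this
      exact mem_filter.2 ⟨mem_univ _, this⟩) (P (swap i j)).injective.injOn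
  have hReq : ∀ i, (R i).card = (R none).card := fun i => le_antisymm (hRle _ _) (hRle _ _)
  have hab' : (some a : Option ι) ≠ some b := fun k => hab (Option.some.inj k)
  have hac' : (some a : Option ι) ≠ some c := fun k => hac (Option.some.inj k)
  have hbc' : (some b : Option ι) ≠ some c := fun k => hbc (Option.some.inj k)
  have e3 : (univ.filter fun ω : Ω => P (cy (some a) (some b) (some c)) ω = ω).card +
      3 * (R none).card = Fintype.card Ω := by
    have k : (univ.filter fun ω : Ω => ¬ P (cy (some a) (some b) (some c)) ω = ω) =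
        R (some a) ∪ (R (some b) ∪ R (some c)) := by
      ext ω
      have := (hC ω).mem_iff hab' hac' hbc'
      rw [mem_stb] at this
      simp only [hR, mem_filter, mem_univ, true_and, this, mem_union]
      tauto
    have := card_filter_add_card_filter_not (s := (univ : Finset Ω))
      fun ω : Ω => P (cy (some a) (some b) (some c)) ω = ω
    rw [k, card_union_of_disjoint (disjoint_union_right.2 ⟨hRd _ _ hab', hRd _ _ hac'⟩),
      card_union_of_disjoint (hRd _ _ hbc'), hReq, hReq (some b), hReq (some c), card_univ] at this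
    omega
  have hr : (R none).card = ρ := by
    have k1 : ((univ.filter fun x : ι => cy a b c x = x).card : ℤ) + 3 = Fintype.card ι := by
      exact_mod_cast e1
    have k2 : ((univ.filter fun ω : Ω => P (cy (some a) (some b) (some c)) ω = ω).card : ℤ) +
      3 * (R none).card = Fintype.card Ω := by exact_mod_cast e3
    have : (3 : ℤ) * (R none).card = 3 * ρ := by
      linear_combination k2 + h0 - h1 - (ρ : ℤ) * k1
    omega
  have hle : (Fintype.card ι + 1) * ρ ≤ Fintype.card Ω := by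
    have := card_le_univ ((univ : Finset (Option ι)).biUnion R)
    rw [card_biUnion fun i _ j _ hij => hRd i j hij, sum_congr rfl fun i _ => (hReq i).trans hr,
      sum_const, card_univ, Fintype.card_option, smul_eq_mul] at this
    exact this
  refine ⟨?_, fun hα hρ => ?_⟩
  · have : ((Fintype.card ι : ℤ) + 1) * ρ ≤ Fintype.card Ω := by exact_mod_cast hle
    nlinarith
  · have hone : ∀ i, ∃ ω, R i = {ω} := fun i => card_eq_one.1 (((hReq i).trans hr).trans hρ)
    choose φ hφ using hone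
    have hm : ∀ i ω, Iso (stb P ω) i ↔ ω = φ i := fun i ω => by
      rw [← mem_singleton, ← hφ, hR]
      simp
    have hinj : Function.Injective φ := fun i j hij =>
      (hC (φ i)).uniq hN ((hm i _).2 rfl) ((hm j _).2 hij)
    have hcard : Fintype.card (Option ι) = Fintype.card Ω := by
      rw [hα, hρ] at h0
      rw [Fintype.card_option]
      omega
    have hbij : Function.Bijective φ := (Fintype.bijective_iff_injective_and_card φ).2 ⟨hinj, hcard⟩
    refine ⟨(Equiv.ofBijective φ hbij).symm, fun σ ω => ?_⟩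
    obtain ⟨i, rfl⟩ := hbij.2 ω
    rw [(hm (σ i) _).1 (iso_act P σ ((hm i _).2 rfl)), Equiv.ofBijective_symm_apply_apply,
      Equiv.ofBijective_symm_apply_apply]

end Pool.Agent.MP_3ce0a0_al.H40
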